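import Mathlib
import Pool.Agent.Helper830.FC.Main

set_option autoImplicit false

namespace Pool.Agent.Results.MP_8b22ef_co.FractionalLog

/-- Let `G` be a finite graph of maximum degree at most `d` in which every vertex set `S` contains
an independent set of size at least `|S| / 3`.  Then there are `T ≥ 1` independent sets
`I_1, …, I_T` of `G` (repetitions allowed) such that every vertex lies in at least
`T / (36 (log_2 d + 5))` of them; that is, the fractional chromatic number of `G` is at most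
`36 (log_2 d + 5)`.  More generally the bound is `12 ρ (log_2 d + 5)` for hereditary
independence ratio at least `1 / ρ`. -/
theorem result :
    (∀ (n d : ℕ) (G : SimpleGraph (Fin n)),
      (∀ v, (G.neighborSet v).ncard ≤ d) →
      (∀ S : Finset (Fin n), ∃ I : Finset (Fin n), I ⊆ S ∧ G.IsIndepSet ↑I ∧ S.card ≤ 3 * I.card) →
      ∃ (T : ℕ) (I : Fin T → Finset (Fin n)), 0 < T ∧ (∀ i, G.IsIndepSet ↑(I i)) ∧
        ∀ v, T ≤ 36 * (Nat.log 2 d + 5) * {i | v ∈ I i}.ncard)
    ∧ (∀ (n d ρ : ℕ) (G : SimpleGraph (Fin n)), 1 ≤ ρ →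
      (∀ v, (G.neighborSet v).ncard ≤ d) →
      (∀ S : Finset (Fin n), ∃ I : Finset (Fin n), I ⊆ S ∧ G.IsIndepSet ↑I ∧ S.card ≤ ρ * I.card) →
      ∃ (T : ℕ) (I : Fin T → Finset (Fin n)), 0 < T ∧ (∀ i, G.IsIndepSet ↑(I i)) ∧
        ∀ v, T ≤ 12 * ρ * (Nat.log 2 d + 5) * {i | v ∈ I i}.ncard) := by
  have h2 := fun (n d ρ : ℕ) (G : SimpleGraph (Fin n)) =>
    Pool.Agent.Helper830.FC.main (V := Fin n) G d ρ
  exact ⟨fun n d G hd hI => by simpa using h2 n d 3 G (by norm_num) hd hI, h2⟩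

end Pool.Agent.Results.MP_8b22ef_co.FractionalLog
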